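import Mathlib
import Pool.Agent.D0H82.DL.Asm

/-!
# Points of small degree in backward orbits: a quasi-polynomial bound

Let `f` be an endomorphism of degree `d ≥ 2` of projective `N`-space over a number field `K`. If
`f^n(β) = α`, then `ĥ(β) = ĥ(α) / d ^ n`. So the dynamical Lehmer conjecture says, for the points `β`
of the backward orbit of a wandering point `α`, that the degree of `β ∈ f^(-n)(α)` over `K` is at
least `c d ^ n`; only `O(D ^ N)` of the points of the backward orbit could have degree at most `D`.
What was known in general is a lower bound `c n ^ (1 / (N + ε))` for the degree (the file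
`WanderingLowerBound`).

(1) There is a constant `C` such that the backward orbit of ANY point `α` (wandering or
preperiodic), over the algebraic closure of `K`, contains at most
`(2 + ĥ(α)) ^ C * exp (C (log (D + 1)) ^ 2)` points of degree at most `D` over `K`, for all `D`.

(2) Hence almost all points of the backward orbits satisfy a lower bound of the type of the
conjecture, with a quasi-polynomial loss: for every `η > 0` there is a constant `A` such that for all
`α` of positive canonical height and all `n`, all `β ∈ f^(-n)(α)` outside a set of at most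
`(2 + ĥ(α) + 1 / ĥ(α)) ^ A * exp (η n)` points satisfy
`ĥ(β) = ĥ(α) / d ^ n ≥ exp (- A (1 + log [K(β) : K]) ^ 2)`.
(For `α` outside the exceptional set, `f^(-n)(α)` itself has about `d ^ (N n)` points.)

(3) `N = 1`: for a rational function `f` of degree `d ≥ 2` over `K` and `α ∈ P^1(K)`, the numerator
of `f^n(x) - α` has at most `(2 + ĥ(α)) ^ C * d ^ n * exp (- √n / C)` different irreducible factors
over `K` (the conjecture implies that their number is bounded, for wandering `α`; without
hypotheses on `f` one knew `o(d ^ n)`).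

Proof. Consider the tree of the points of the backward orbit. By the theorem of
`LehmerOutsideSmallSet`, there are at most `C D ^ (N + 1)` points of canonical height less than
`1 / (C D)` over a field of degree `D`. After `O(log (D (2 + ĥ(α))))` steps all points of degree at
most `D` of the tree are so small. So for each of these points `γ`, at most `C D ^ (N + 1)` points
above `γ` have the same field of definition as `γ`; every point has a bounded number of preimages;
and a preimage with a different field of definition has at least twice the degree. As the degree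
can be doubled at most `log D / log 2` times, there are at most
`(C' D ^ (N + 1)) ^ (1 + log D / log 2)` points.
-/

set_option autoImplicit false

namespace Pool.Agent.Results.MP_2194ec_nt.BackwardOrbits

open MvPolynomial NumberField Module Filter Topology

open scoped LinearAlgebra.Projectivization Polynomial

/-- the forms `F 0, …, F N` of degree `d` over `K` define an endomorphism of degree `d` of `P^N`:
they have no common zero -/
def IsEndomorphism (K : Type) [Field K] (N d : ℕ)
    (F : Fin (N + 1) → MvPolynomial (Fin (N + 1)) K) : Prop :=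
  (∀ i, (F i).IsHomogeneous d) ∧
    ∀ z : Fin (N + 1) → AlgebraicClosure K, (∀ i, aeval z (F i) = 0) → z = 0

/-- the map on coordinate vectors over an extension `L` of `K` -/
noncomputable def evalMap {K L : Type} [Field K] [Field L] [Algebra K L] {N : ℕ}
    (F : Fin (N + 1) → MvPolynomial (Fin (N + 1)) K) (x : Fin (N + 1) → L) : Fin (N + 1) → L :=
  fun i => aeval x (F i)

/-- `h` is the canonical height of the point with coordinate vector `a` over the number field `L`:
the limit of `d ^ (-n)` times the absolute logarithmic Weil height of the `n`-th iterate -/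
def IsCanonicalHeight {K L : Type} [Field K] [Field L] [NumberField L] [Algebra K L] {N : ℕ}
    (F : Fin (N + 1) → MvPolynomial (Fin (N + 1)) K) (d : ℕ) (a : Fin (N + 1) → L) (h : ℝ) :
    Prop :=
  Tendsto (fun n : ℕ => Height.logHeight ((evalMap F)^[n] a) / ((finrank ℚ L : ℝ) * (d : ℝ) ^ n))
    atTop (𝓝 h)

/-- the field of definition `K(P)` of a point `P` over the algebraic closure of `K`: the field
generated over `K` by the quotients of the coordinates -/
noncomputable def fieldOf (K : Type) [Field K] {n : ℕ}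
    (P : ℙ (AlgebraicClosure K) (Fin n → AlgebraicClosure K)) :
    IntermediateField K (AlgebraicClosure K) :=
  IntermediateField.adjoin K {x | ∃ i j, P.rep j ≠ 0 ∧ x = P.rep i / P.rep j}

/-- the points of `f^(-n)(α)`, where `α` is the point with coordinate vector `a` -/
def preimages {K : Type} [Field K] {N : ℕ} (F : Fin (N + 1) → MvPolynomial (Fin (N + 1)) K)
    (a : Fin (N + 1) → AlgebraicClosure K) (n : ℕ) :
    Set (ℙ (AlgebraicClosure K) (Fin (N + 1) → AlgebraicClosure K)) :=
  {P | ∃ c : AlgebraicClosure K, c ≠ 0 ∧ (evalMap F)^[n] P.rep = c • a}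

/-- the polynomials `F_n(x), G_n(x)` with `f^n(x) = F_n(x) / G_n(x)`: the `n`-th iterate of the pair
of forms, applied to the vector `(x, 1)` of polynomials -/
noncomputable def iterate {K : Type} [Field K] (F : Fin 2 → MvPolynomial (Fin 2) K) (n : ℕ) :
    Fin 2 → K[X] :=
  (fun u : Fin 2 → K[X] => fun i => aeval u (F i))^[n] ![Polynomial.X, 1]

/-- the numerator `a_1 F_n(x) - a_0 G_n(x)` of `f^n(x) - α`, where `α = (a_0 : a_1)` -/
noncomputable def numerator {K : Type} [Field K] (F : Fin 2 → MvPolynomial (Fin 2) K)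
    (a : Fin 2 → K) (n : ℕ) : K[X] :=
  Polynomial.C (a 1) * iterate F n 0 - Polynomial.C (a 0) * iterate F n 1

/-- the points of degree at most `D` over `K` in the backward orbit of the point with coordinate
vector `a` -/
def lowDegree {K : Type} [Field K] {N : ℕ} (F : Fin (N + 1) → MvPolynomial (Fin (N + 1)) K)
    (a : Fin (N + 1) → AlgebraicClosure K) (D : ℕ) :
    Set (ℙ (AlgebraicClosure K) (Fin (N + 1) → AlgebraicClosure K)) :=
  {P | finrank K (fieldOf K P) ≤ D ∧ ∃ n, P ∈ preimages F a n}

/-- the points `P` of `f^(-n)(α)` with `h / d ^ n < exp (- A (1 + log [K(P) : K]) ^ 2)`; here `h` is the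
canonical height of `α`, so that `h / d ^ n` is the canonical height of `P` -/
def lowHeight {K : Type} [Field K] {N : ℕ} (F : Fin (N + 1) → MvPolynomial (Fin (N + 1)) K)
    (d : ℕ) (a : Fin (N + 1) → AlgebraicClosure K) (h A : ℝ) (n : ℕ) :
    Set (ℙ (AlgebraicClosure K) (Fin (N + 1) → AlgebraicClosure K)) :=
  {P | P ∈ preimages F a n ∧
    h / (d : ℝ) ^ n < Real.exp (-(A * (1 + Real.log (finrank K (fieldOf K P))) ^ 2))}

/-- the monic irreducible factors over `K` of the numerator of `f^n(x) - α` -/
def factors {K : Type} [Field K] (F : Fin 2 → MvPolynomial (Fin 2) K) (a : Fin 2 → K) (n : ℕ) :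
    Set K[X] :=
  {g | g.Monic ∧ Irreducible g ∧ g ∣ numerator F a n}

/-- statement (1), for one map -/
def FewPoints {K : Type} [Field K] {N : ℕ} (F : Fin (N + 1) → MvPolynomial (Fin (N + 1)) K)
    (d : ℕ) : Prop :=
  ∃ C : ℝ, 0 < C ∧ ∀ (L : Type) [Field L] [NumberField L] [Algebra K L]
    (ψ : L →ₐ[K] AlgebraicClosure K) (a : Fin (N + 1) → L), a ≠ 0 →
    ∃ h : ℝ, 0 ≤ h ∧ IsCanonicalHeight F d a h ∧ ∀ D : ℕ,
      (lowDegree F (fun i => ψ (a i)) D).Finite ∧
      ((lowDegree F (fun i => ψ (a i)) D).ncard : ℝ) ≤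
        (2 + h) ^ C * Real.exp (C * Real.log (D + 1) ^ 2)

/-- statement (2), for one map -/
def FewSmallPoints {K : Type} [Field K] {N : ℕ} (F : Fin (N + 1) → MvPolynomial (Fin (N + 1)) K)
    (d : ℕ) : Prop :=
  ∀ η : ℝ, 0 < η → ∃ A : ℝ, 0 < A ∧ ∀ (L : Type) [Field L] [NumberField L] [Algebra K L]
    (ψ : L →ₐ[K] AlgebraicClosure K) (a : Fin (N + 1) → L), a ≠ 0 →
    ∀ h : ℝ, 0 < h → IsCanonicalHeight F d a h → ∀ n : ℕ,
      (lowHeight F d (fun i => ψ (a i)) h A n).Finite ∧
      ((lowHeight F d (fun i => ψ (a i)) h A n).ncard : ℝ) ≤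
        (2 + h + 1 / h) ^ A * Real.exp (η * n)

/-- statement (3), for one map -/
def FewFactors {K : Type} [Field K] [NumberField K] (F : Fin 2 → MvPolynomial (Fin 2) K)
    (d : ℕ) : Prop :=
  ∃ C : ℝ, 0 < C ∧ ∀ a : Fin 2 → K, a ≠ 0 →
    ∃ h : ℝ, 0 ≤ h ∧ IsCanonicalHeight (N := 1) F d a h ∧ ∀ n : ℕ,
      (factors F a n).Finite ∧
      ((factors F a n).ncard : ℝ) ≤ (2 + h) ^ C * (d : ℝ) ^ n * Real.exp (-(Real.sqrt n / C))

theorem result :
    (∀ (K : Type) [Field K] [NumberField K] (N d : ℕ)
      (F : Fin (N + 1) → MvPolynomial (Fin (N + 1)) K), 2 ≤ d → IsEndomorphism K N d F →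
      FewPoints F d ∧ FewSmallPoints F d) ∧
    (∀ (K : Type) [Field K] [NumberField K] (d : ℕ) (F : Fin 2 → MvPolynomial (Fin 2) K),
      2 ≤ d → IsEndomorphism K 1 d F → FewFactors F d) := by
  refine ⟨fun K _ _ N d F hd hE => ⟨?_, ?_⟩, ?_⟩
  · obtain ⟨C, hC, H⟩ := D0H82.DL.main_count hd hE.1 hE.2
    refine ⟨C, hC, fun L _ _ _ ψ a ha => ?_⟩
    obtain ⟨ht, hc⟩ := H L
    have h0 : 0 ≤ W238.Leh.canH F d a := by
      refine ge_of_tendsto' (ht a ha) fun n => ?_
      have := Height.logHeight_nonneg ((W238.Leh.act F)^[n] a)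
      positivity
    refine ⟨W238.Leh.canH F d a, h0, ht a ha, fun D => ?_⟩
    have h1 := hc ψ a ha D
    have hset : lowDegree F (fun i => ψ (a i)) D =
        D0H82.DL.backSet F (fun i => ψ (a i)) D := rfl
    rw [hset, Real.rpow_def_of_pos (by linarith), mul_comm (Real.log _) C]
    exact h1
  · intro η hη
    obtain ⟨C, hC, H⟩ := D0H82.DL.main_count hd hE.1 hE.2
    have hA0 : 0 < C + 1 + C * Real.log d / η := by
      have hd1 : (1 : ℝ) < d := by
        have : 1 < d := by omega
        exact_mod_cast this
      have := Real.log_pos hd1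
      positivity
    refine ⟨C + 1 + C * Real.log d / η, hA0, fun L _ _ _ ψ a ha h hh hcan n => ?_⟩
    obtain ⟨ht, hc⟩ := H L
    have hheq : W238.Leh.canH F d a = h := tendsto_nhds_unique (ht a ha) hcan
    obtain ⟨_, D, hD, hreal⟩ := D0H82.DL.real_lower (n := n) hC hη hh hd rfl
    obtain ⟨hfin, hcard⟩ := hc ψ a ha D
    rw [hheq] at hcard
    have hsub : lowHeight F d (fun i => ψ (a i)) h (C + 1 + C * Real.log d / η) n ⊆
        D0H82.DL.backSet F (fun i => ψ (a i)) D := by
      rintro P ⟨hP, hlt⟩
      refine ⟨hD _ ?_ hlt, n, hP⟩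
      exact (finrank_pos : 0 < finrank K (D0H82.DL.fieldOf K P))
    refine ⟨hfin.subset hsub, ?_⟩
    have h1 : ((lowHeight F d (fun i => ψ (a i)) h (C + 1 + C * Real.log d / η) n).ncard : ℝ) ≤
        ((D0H82.DL.backSet F (fun i => ψ (a i)) D).ncard : ℝ) := by
      exact_mod_cast Set.ncard_le_ncard hsub hfin
    have hpos : 0 < 2 + h + 1 / h := by positivity
    rw [Real.rpow_def_of_pos hpos, mul_comm (Real.log _) _]
    exact h1.trans (hcard.trans hreal)
  · intro K _ _ d F hd hE
    obtain ⟨C, hC, H⟩ := D0H82.DL.main_count (N := 1) hd hE.1 hE.2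
    refine ⟨5 * C + 5, by positivity, fun a ha => ?_⟩
    obtain ⟨ht, hc⟩ := H K
    have h0 : 0 ≤ W238.Leh.canH (N := 1) F d a := by
      refine ge_of_tendsto' (ht a ha) fun n => ?_
      have := Height.logHeight_nonneg ((W238.Leh.act F)^[n] a)
      positivity
    refine ⟨W238.Leh.canH (N := 1) F d a, h0, ht a ha, fun n => ?_⟩
    have hne := D0H82.DL.numer_ne_zero hd hE.1 hE.2 ha n
    obtain ⟨D, hreal⟩ := D0H82.DL.real_factor (n := n) hC h0 hd
    obtain ⟨hfin, hcard⟩ := hc (Algebra.ofId K (AlgebraicClosure K)) a ha D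
    have hT : ∀ T : Finset K[X],
        (T : Set K[X]) ⊆ factors F a n →
        (T.card : ℝ) ≤ (2 + W238.Leh.canH (N := 1) F d a) ^ (5 * C + 5) * (d : ℝ) ^ n *
          Real.exp (-(Real.sqrt n / (5 * C + 5))) := by
      intro T hT
      have h1 := D0H82.DL.factor_count hE.1 hE.2 ha n D hne hfin T fun g hg => hT hg
      rw [Real.rpow_def_of_pos (by linarith), mul_comm (Real.log _) _]
      exact h1.trans ((add_le_add_left hcard _).trans hreal)
    have hTfin : (factors F a n).Finite := by
      by_contra hinf
      obtain ⟨T, hTs, hTc⟩ := Set.Infinite.exists_subset_card_eq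
        (s := factors F a n) hinf
        (⌊(2 + W238.Leh.canH (N := 1) F d a) ^ (5 * C + 5) * (d : ℝ) ^ n *
          Real.exp (-(Real.sqrt n / (5 * C + 5)))⌋₊ + 1)
      have h1 := hT T hTs
      rw [hTc] at h1
      push_cast at h1
      have := Nat.lt_floor_add_one ((2 + W238.Leh.canH (N := 1) F d a) ^ (5 * C + 5) *
        (d : ℝ) ^ n * Real.exp (-(Real.sqrt n / (5 * C + 5))))
      linarith
    refine ⟨hTfin, ?_⟩
    rw [Set.ncard_eq_toFinset_card _ hTfin]
    exact hT _ (by simp)

end Pool.Agent.Results.MP_2194ec_nt.BackwardOrbits
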