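import Mathlib
import Pool.Agent.D0H75.RD.Fam

/-!
# Canonical heights and relative discriminants: the dynamical Lehmer inequality for points whose
# field has a large root discriminant, for several points of several maps at once, with constants
# which are linear in the heights of the maps

There are constants `c(N, d)` (`N ≥ 0`, `d ≥ 2`) such that the following holds for ALL number fields
`K ⊆ E ⊆ L` (`K = E` is allowed). Endomorphisms `f` of projective spaces are over `K`, of degree
`d ≥ 2`, `ĥ_f` is the canonical height of `f`, `h(f)` is the absolute logarithmic height of the point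
whose coordinates are all the coefficients of the forms which define `f : P^N → P^N`, and

  `C(f) = c(N, d) (1 + h(f))`.

Put `D = [L : E]`, `n = [L : ℚ]`, let `𝔇` be the different of `L` over `E` and
`δ = log N(𝔇) / (2 n)`; so `exp (2 δ)` is the factor by which the root discriminant grows from `E`
to `L`.

(1) Let `P_s` be finitely many `L`-points of projective spaces with endomorphisms `f_s`, and let
`m_s ≥ 0` be such that the products of the values at `P_s` of forms of degree `m_s` over `E` span
`L` over `E`. Then

  `δ ≤ ∑ m_s ĥ_{f_s}(P_s) + (log D) / 2 + ∑ C(f_s) (1 + log m_s)`.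

(In Lean `log 0 = 0`; points with `m_s = 0` can be left out.) For one point the condition holds for
`m ≥ D - 1`, if `L = E(P)`; if `N ≥ 2` it holds for points in general position as soon as the forms
of degree `m` have at least `D` coefficients. For several points it holds for `m_s ≥ D_s - 1`, if
`L` is generated by the points and the `D_s` are as in (3).

(2) If `L = E(P)`, then `D ĥ_f(P) ≥ δ - C(f) log D`.

So the inequality of the conjecture, with any constant `B` and over any base field `E`, holds for all
points `P` such that the root discriminant of `E(P)` is at least `exp (2 B) D ^ (2 C(f))` times that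
of `E`, where `D = [E(P) : E]`.

(3) If `L` is generated over `E` by points `P_0, …, P_(k-1)` of projective spaces with endomorphisms
`f_s`, `C(f_s) ≤ C`, and `D_s = [E(P_0, …, P_s) : E(P_0, …, P_(s-1))]`, then the sum of
`D_s ĥ_{f_s}(P_s)` over all `s` with `D_s > 1` is at least `δ - C log D`.

(4) If moreover `[E(P_s) : E] ĥ_{f_s}(P_s) ≤ B` for all `s`, then `δ ≤ (C + 2 B) log D`: points which
violate the inequality of the conjecture, for whatever maps with `C(f) ≤ C`, generate (together) only
extensions whose relative root discriminant is bounded by a fixed power of the degree.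

(5) In particular, `N(𝔇)^(1/n) ≤ D^(2C)` if `L` is generated over `E` by preperiodic points of maps
with `C(f) ≤ C`, for instance if `L` is the Galois closure over `E` of the field of a preperiodic point.

For `N = 1`, `K = ℚ` and a power map, (2) is the classical inequality of Mahler and Silverman, up to
the constant `C`. For general `f` their inequality for the Weil height and `ĥ = h + O(1)` give the
inequality with an error term of the order `D` instead of `C log D`, which says nothing about
points of small height.

The proof uses the forms of degree `m` which are products of monomials in the iterates of `f` (of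
`LehmerOutsideSmallSet`): products of their values at the points span `L` over `E` and lie in a
fractional ideal, whose norm and whose archimedean sizes are given by the canonical heights up to
`O(log m)`. The discriminant of an `E`-basis of `L` consisting of such values is compared with the
different by looking at all embeddings of `L`, so that there is no dependence on `E`, and Hadamard's
inequality. For the uniformity in `f` one needs a degree `e₀(N, d)` such that for every `f` all forms
of degree `e₀` are in the ideal generated by the forms of `f` (this follows from the fact that the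
ring of polynomials in the coefficients is noetherian) and, for the comparison of the heights of `P`
and of `f(P)`, the identity for the monomials of degree `e₀` given by a maximal minor which is not
zero and its adjugate.
-/

set_option autoImplicit false

namespace Pool.Agent.Results.MP_2194ec_nt.DiscriminantsAndSmallPoints

open MvPolynomial NumberField Module Filter Topology

/-- an endomorphism of degree `deg ≥ 2` of projective space of dimension `dim` over `K`, given by
forms of degree `deg` without common zero -/
structure Endomorphism (K : Type) [Field K] where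
  dim : ℕ
  deg : ℕ
  forms : Fin (dim + 1) → MvPolynomial (Fin (dim + 1)) K
  two_le_deg : 2 ≤ deg
  homogeneous : ∀ i, (forms i).IsHomogeneous deg
  noCommonZero : ∀ z : Fin (dim + 1) → AlgebraicClosure K, (∀ i, aeval z (forms i) = 0) → z = 0

variable {K : Type} [Field K]

/-- the height `h(f)`: the absolute logarithmic Weil height (Mathlib's relative `Height.logHeight`
divided by `[K : ℚ]`) of the vector of the coefficients of all monomials of degree `deg` in the
forms -/
noncomputable def coefficientHeight [NumberField K] (f : Endomorphism K) : ℝ :=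
  Height.logHeight (fun p : Fin (f.dim + 1) ×
    (Finset.univ : Finset (Fin (f.dim + 1))).finsuppAntidiag f.deg => (f.forms p.1).coeff p.2.1) /
      finrank ℚ K

/-- the map on coordinate vectors over an extension `L` of `K` -/
noncomputable def evalMap (f : Endomorphism K) {L : Type} [Field L] [Algebra K L]
    (z : Fin (f.dim + 1) → L) : Fin (f.dim + 1) → L :=
  fun i => aeval z (f.forms i)

/-- the canonical height of the point with coordinate vector `z` over the number field `L`: the
limit of `h(f^n(P)) / d ^ n`, where `h` is the absolute logarithmic Weil height, that is Mathlib's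
(relative) `Height.logHeight` divided by `[L : ℚ]` -/
noncomputable def canonicalHeight (f : Endomorphism K) {L : Type} [Field L] [NumberField L]
    [Algebra K L] (z : Fin (f.dim + 1) → L) : ℝ :=
  limUnder atTop fun n : ℕ =>
    Height.logHeight ((evalMap f)^[n] z) / ((finrank ℚ L : ℝ) * (f.deg : ℝ) ^ n)

/-- the point with coordinate vector `z` is preperiodic -/
def IsPreperiodic (f : Endomorphism K) {L : Type} [Field L] [Algebra K L]
    (z : Fin (f.dim + 1) → L) : Prop :=
  ∃ m n : ℕ, m ≠ n ∧ ∃ c : L, c ≠ 0 ∧ (evalMap f)^[n] z = c • (evalMap f)^[m] z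

/-- the field `E(P)` of the point `P` with coordinate vector `z`: it is generated over `E` by the
quotients of the coordinates -/
def pointField (E : Type) [Field E] {L : Type} [Field L] [Algebra E L] {n : ℕ} (z : Fin n → L) :
    IntermediateField E L :=
  IntermediateField.adjoin E {x : L | ∃ i j, x = z i / z j}

/-- the field `E(P_0, …, P_(t-1))`, where `P_s` is the point with coordinate vector `z s` in a
projective space of dimension `N s` -/
def pointsField (E : Type) [Field E] {L : Type} [Field L] [Algebra E L] {N : ℕ → ℕ}
    (z : ∀ s, Fin (N s + 1) → L) (t : ℕ) : IntermediateField E L :=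
  IntermediateField.adjoin E {x : L | ∃ s < t, ∃ i j, x = z s i / z s j}

/-- `δ = log N(𝔇) / (2 [L : ℚ])`, where `N(𝔇)` is the absolute norm of the different `𝔇` of `L` over
`E` -/
noncomputable def delta (E L : Type) [Field E] [NumberField E] [Field L] [NumberField L]
    [Algebra E L] : ℝ :=
  Real.log (Ideal.absNorm (differentIdeal (𝓞 E) (𝓞 L))) / (2 * finrank ℚ L)

/-- the products of the values at the points `P_s`, with coordinate vectors `z s`, of forms of degree
`m s` over `E` span `L` over `E` -/
def ProductsSpan (E : Type) [Field E] {L : Type} [Field L] [Algebra E L] {ι : Type} [Fintype ι]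
    {N : ι → ℕ} (z : ∀ s, Fin (N s + 1) → L) (m : ι → ℕ) : Prop :=
  Submodule.span E {x : L | ∃ p : ∀ s, MvPolynomial (Fin (N s + 1)) E,
    (∀ s, (p s).IsHomogeneous (m s)) ∧ x = ∏ s, aeval (z s) (p s)} = ⊤

open Classical in
/-- the sum of `D_s ĥ_{f_s}(P_s)` over all `s < k` with `D_s > 1`, where
`D_s = [E(P_0, …, P_s) : E(P_0, …, P_(s-1))]` -/
noncomputable def totalCost (E : Type) [Field E] {L : Type} [Field L] [NumberField L]
    [Algebra E L] [Algebra K L] (f : ℕ → Endomorphism K) (z : ∀ s, Fin ((f s).dim + 1) → L)
    (k : ℕ) : ℝ :=
  ∑ s ∈ Finset.range k with pointsField E z (s + 1) ≠ pointsField E z s,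
    (finrank E (pointsField E z (s + 1)) : ℝ) / finrank E (pointsField E z s) *
      canonicalHeight (f s) (z s)

/-- **Main result.** -/
theorem result :
    ∃ c : ℕ → ℕ → ℝ, (∀ N d, 0 < c N d) ∧
      ∀ (K E L : Type) [Field K] [NumberField K] [Field E] [NumberField E] [Field L]
      [NumberField L] [Algebra K E] [Algebra K L] [Algebra E L] [IsScalarTower K E L]
      (C : Endomorphism K → ℝ), (∀ f, C f = c f.dim f.deg * (1 + coefficientHeight f)) →
      -- the canonical height is defined
      (∀ (f : Endomorphism K) (z : Fin (f.dim + 1) → L), z ≠ 0 →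
        Tendsto (fun n : ℕ => Height.logHeight ((evalMap f)^[n] z) /
          ((finrank ℚ L : ℝ) * (f.deg : ℝ) ^ n)) atTop (𝓝 (canonicalHeight f z))) ∧
      -- (1) several points, products of forms of degree `m s`
      (∀ (ι : Type) [Fintype ι] (f : ι → Endomorphism K) (z : ∀ s, Fin ((f s).dim + 1) → L)
        (m : ι → ℕ), (∀ s, z s ≠ 0) → ProductsSpan E z m →
        delta E L ≤ ∑ s, (m s * canonicalHeight (f s) (z s) + C (f s) * (1 + Real.log (m s))) +
          Real.log (finrank E L) / 2) ∧
      -- (2) one point, which generates `L` over `E`
      (∀ (f : Endomorphism K) (z : Fin (f.dim + 1) → L), z ≠ 0 → pointField E z = ⊤ →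
        delta E L - C f * Real.log (finrank E L) ≤ finrank E L * canonicalHeight f z) ∧
      -- several points, which generate `L` over `E`
      (∀ (k : ℕ) (f : ℕ → Endomorphism K) (z : ∀ s, Fin ((f s).dim + 1) → L),
        (∀ s < k, z s ≠ 0) → pointsField E z k = ⊤ → ∀ C₀ : ℝ, (∀ s < k, C (f s) ≤ C₀) →
        -- (3)
        delta E L ≤ totalCost E f z k + C₀ * Real.log (finrank E L) ∧
        -- (4) points which violate the inequality of the conjecture
        (∀ B : ℝ, 0 ≤ B →
          (∀ s < k, (finrank E (pointField E (z s)) : ℝ) * canonicalHeight (f s) (z s) ≤ B) →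
          delta E L ≤ (C₀ + 2 * B) * Real.log (finrank E L)) ∧
        -- (5) preperiodic points
        ((∀ s < k, IsPreperiodic (f s) (z s)) → delta E L ≤ C₀ * Real.log (finrank E L))) := by
  classical
  have hex : ∀ N d : ℕ, ∃ c : ℝ, 4 ≤ c ∧ (2 ≤ d → ∀ (K : Type) [Field K] [NumberField K]
      (F : Fin (N + 1) → MvPolynomial (Fin (N + 1)) K), (∀ i, (F i).IsHomogeneous d) →
      (∀ z : Fin (N + 1) → AlgebraicClosure K, (∀ i, aeval z (F i) = 0) → z = 0) →
      D0H75.RD.Pk F d (c * (1 + D0H75.RD.hF0 d F))) := by
    intro N d
    by_cases hd : 2 ≤ d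
    · obtain ⟨c, hc, h⟩ := D0H75.RD.exists_Pk N d hd
      exact ⟨c, hc, fun _ => h⟩
    · exact ⟨4, le_rfl, fun h => absurd h hd⟩
  choose c hc hPk using hex
  refine ⟨c, fun N d => by linarith [hc N d], fun K E L _ _ _ _ _ _ _ _ _ _ C hCf => ?_⟩
  have hP : ∀ f : Endomorphism K, D0H75.RD.Pk f.forms f.deg (C f) := by
    intro f
    rw [hCf]
    exact hPk f.dim f.deg f.two_le_deg K f.forms f.homogeneous f.noCommonZero
  have hn : (0 : ℝ) < 2 * finrank ℚ L := by
    have : (0 : ℝ) < finrank ℚ L := by exact_mod_cast (finrank_pos : 0 < finrank ℚ L)
    positivity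
  have k3 : ∀ (k : ℕ) (f : ℕ → Endomorphism K) (z : ∀ s, Fin ((f s).dim + 1) → L),
        (∀ s < k, z s ≠ 0) → pointsField E z k = ⊤ → ∀ C₀ : ℝ, (∀ s < k, C (f s) ≤ C₀) →
        delta E L ≤ totalCost E f z k + C₀ * Real.log (finrank E L) := by
    intro k f z hz hk C₀ hC₀
    rw [delta, div_le_iff₀' hn, totalCost]
    refine (D0H75.RD.smallD (E := E) (F := fun s => (f s).forms) (d := fun s => (f s).deg)
      (C := fun s => C (f s)) z k (fun s _ => hP (f s)) hC₀ hz hk).trans (le_of_eq ?_)
    congr 2
    rw [Finset.sum_filter]
    refine Finset.sum_congr rfl fun s _ => ?_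
    rw [ite_not]
    rfl
  have k4 : ∀ (k : ℕ) (f : ℕ → Endomorphism K) (z : ∀ s, Fin ((f s).dim + 1) → L),
        (∀ s < k, z s ≠ 0) → pointsField E z k = ⊤ → ∀ C₀ : ℝ, (∀ s < k, C (f s) ≤ C₀) →
        ∀ B : ℝ, 0 ≤ B →
          (∀ s < k, (finrank E (pointField E (z s)) : ℝ) * canonicalHeight (f s) (z s) ≤ B) →
          delta E L ≤ (C₀ + 2 * B) * Real.log (finrank E L) := by
    intro k f z hz hk C₀ hC₀ B hB hs
    rw [delta, div_le_iff₀' hn]
    refine (D0H75.RD.smallD (E := E) (F := fun s => (f s).forms) (d := fun s => (f s).deg)
      (C := fun s => C (f s)) z k (fun s _ => hP (f s)) hC₀ hz hk).trans ?_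
    refine mul_le_mul_of_nonneg_left ?_ hn.le
    have h2 := D0H75.RD.sum_costD_le (E := E) (F := fun s => (f s).forms)
      (d := fun s => (f s).deg) (C := fun s => C (f s)) z k (fun s _ => hP (f s)) hz hB hs
    have h3 : D0H75.RD.genD E z k = ⊤ := hk
    rw [h3, IntermediateField.finrank_top'] at h2
    linarith
  refine ⟨fun f z hz => (hP f).lim L z hz, ?_, ?_, fun k f z hz hk C₀ hC₀ =>
    ⟨k3 k f z hz hk C₀ hC₀, k4 k f z hz hk C₀ hC₀, ?_⟩⟩
  · intro ι _ f z m hz hspan
    rw [delta, div_le_iff₀' hn]
    refine (D0H75.RD.multi (E := E) (F := fun s => (f s).forms) (d := fun s => (f s).deg)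
      (C := fun s => C (f s)) (fun s => hP (f s)) m z hz hspan).trans (le_of_eq ?_)
    rw [add_comm (Real.log (finrank E L : ℝ) / 2)]
    rfl
  · intro f z hz hz1
    have e1 : pointsField E (N := fun _ => f.dim) (fun _ => z) 1 = pointField E z := by
      unfold pointsField pointField
      congr 1
      ext x
      constructor
      · rintro ⟨_, _, hx⟩
        exact hx
      · rintro hx
        exact ⟨0, zero_lt_one, hx⟩
    have e0 : pointsField E (N := fun _ => f.dim) (fun _ => z) 0 = ⊥ := by
      unfold pointsField
      rw [← IntermediateField.adjoin_empty E L]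
      congr 1
      ext x
      simp
    have hcan : 0 ≤ canonicalHeight f z := (hP f).nonneg L z hz
    have h6 := k3 1 (fun _ => f) (fun _ => z) (fun _ _ => hz) (by rw [e1, hz1]) (C f)
      (fun _ _ => le_rfl)
    rw [totalCost, Finset.sum_filter, Finset.sum_range_one, zero_add, e1, e0, hz1,
      IntermediateField.finrank_top', IntermediateField.finrank_bot, Nat.cast_one, div_one] at h6
    have h7 : 0 ≤ (finrank E L : ℝ) * canonicalHeight f z :=
      mul_nonneg (Nat.cast_nonneg _) hcan
    split_ifs at h6 <;> linarith
  · intro hs
    have h6 := k4 k f z hz hk C₀ hC₀ 0 le_rfl fun s hs' => by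
      have h7 : canonicalHeight (f s) (z s) = 0 := (hP (f s)).preper L (z s) (hz s hs') (hs s hs')
      rw [h7, mul_zero]
    rw [mul_zero, add_zero] at h6
    exact h6

end Pool.Agent.Results.MP_2194ec_nt.DiscriminantsAndSmallPoints
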