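import Pool.Agent.D0H55.LL.Upp

/-!
# MP_2194ec_nt: the Lehmer inequality with a constant proportional to the height of the map

Let `K` be a number field of degree `n` and `d ≥ 2`.  Every polynomial over `K` of degree at most `d`
can be written as

  `φ = (c₀ + c₁ x + … + c_d x^d) / b`,  `b ∈ ℤ`, `c₀, …, c_d ∈ O_K`.

The starting result `PolynomialLehmer` shows that for 100% of the polynomials the inequality
`ĥ_φ(x) ≥ B / [L : K]` of the dynamical Lehmer conjecture holds for all number fields `L ⊇ K` whose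
degree over `K` is not divisible by `d` and all `x ∈ L`, where `B` is any constant given in advance.
Here the constant grows like the height of `φ`, as in the dynamical Lang conjecture, the number of
exceptions is estimated, and the estimates are uniform in the field `K` of degree `n` and in the
integral basis.

**Theorem.**  Let `2 ≤ X ≤ Y`.  We consider the `(2 X + 1) (2 Y + 1)^(n (d + 1))` vectors `(b, c)` with
`|b| ≤ X` and coordinates of the `c_i` (in an arbitrary integral basis of `K`) of absolute value at most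
`Y`.  There is a constant `C` which depends only on `d` and `n` such that:

1. For all `u > 0`, all but a share of at most `C (u + 1 / log X)^(1/d)` of the vectors have the
   following property: for ALL number fields `L ⊇ K` with `d ∤ [L : K]` and all `x ∈ L`,

     `ĥ_φ(x) ≥ (u / (d n)) log X / [L : K]`, and `ĥ_φ(x) ≥ (u / (d n)) log X` if `L / K` is Galois.

   This order of magnitude is right: `ĥ_φ(0) ≤ (log X + A) / (d - 1)` for all vectors with `X = Y`,
   `b ≠ 0`, where `A` depends on the basis only (part 4).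
2. For all but a share of at most `C (log X)^(-1/d)` of the vectors, `φ` has no preperiodic point in any
   number field `L ⊇ K` with `d ∤ [L : K]`.
3. (Lang and Lehmer at the same time.)  For every `ε > 0` there is `κ > 0`, depending only on `ε`, `d`
   and `n`, such that in large cubes (`X = Y ≥ X₀(K, ε)`) all but a share `ε` of the vectors satisfy
   `ĥ_φ(x) ≥ κ h(φ) / [L : K]` for all number fields `L ⊇ K` with `d ∤ [L : K]` and all `x ∈ L`, and
   `ĥ_φ(x) ≥ κ h(φ)` if `L / K` is Galois; here `h(φ)` is the height of `[b : c₀ : … : c_d]`.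

Proof.  By the local argument of `PolynomialLehmer` it suffices that `b` has a prime factor
`p ≥ X^u` such that `c₀ + … + c_d x^d` is irreducible of degree `d` modulo a prime `v` of `K` above `p`.
For a fixed `b ≠ 0` the product `m` of the prime factors of `b` larger than `z` is at most `X ≤ Y`.
So the residues modulo `m` of the coordinates of the `c_i` are almost equidistributed, and the share of
the `c` that are bad at all these primes is at most `2^(n (d + 1))` times the product of the
`1 - (1 - 1/p)² / d`: at least `(1 - 1/q)² / d` of all vectors over the field with `q` elements are the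
coefficients of irreducible polynomials of degree `d`.  The mean value over `b` of this multiplicative
function is at most a constant times `exp (- ∑_{z < p ≤ X} 1 / (d p))`, which has the order
`(log z / log X)^(1/d)` (Chebyshev and Mertens).
-/

set_option autoImplicit false

open Polynomial NumberField Module Filter Topology

namespace Pool.Agent.Results.MP_2194ec_nt.LangLehmer

/-- The polynomial `(c₀ + c₁ x + … + c_d x^d) / b` over `K`. -/
noncomputable def poly {K : Type} [Field K] {d : ℕ} (b : ℤ) (c : Fin (d + 1) → 𝓞 K) : K[X] :=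
  C ((b : K)⁻¹) * ∑ i : Fin (d + 1), C (c i : K) * X ^ (i : ℕ)

/-- The real number `h` is the canonical height of the element `x` of the number field `L` for the
polynomial `φ` over the subfield `K` of `L`: the limit of `h(φⁿ(x)) / dⁿ`, where `d` is the degree of
`φ` and `h(y)` is the absolute logarithmic Weil height of `y`, that is, Mathlib's (relative)
`Height.logHeight₁ y` divided by `[L : ℚ]`. -/
def IsCanonicalHeight {K L : Type} [Field K] [Field L] [NumberField L] [Algebra K L] (φ : K[X])
    (x : L) (h : ℝ) : Prop :=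
  Tendsto (fun n : ℕ => Height.logHeight₁ ((fun y => aeval y φ)^[n] x) /
    ((finrank ℚ L : ℝ) * (φ.natDegree : ℝ) ^ n)) atTop (𝓝 h)

/-- The Lehmer inequality with the constant `B`: `b ≠ 0`, the polynomial `φ = (c₀ + … + c_d x^d) / b`
has degree `d`, and for every number field `L` that contains `K` and whose degree over `K` is not
divisible by `d`, the canonical height of every `x ∈ L` exists and is at least `B / [L : K]`, and at
least `B` if `L` is Galois over `K`. -/
def Lehmer {K : Type} [Field K] {d : ℕ} (B : ℝ) (b : ℤ) (c : Fin (d + 1) → 𝓞 K) : Prop :=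
  b ≠ 0 ∧ (poly b c).natDegree = d ∧
    ∀ (L : Type) [Field L] [NumberField L] [Algebra K L] (x : L), ¬ d ∣ finrank K L →
      ∃ h : ℝ, IsCanonicalHeight (poly b c) x h ∧ B / finrank K L ≤ h ∧ (IsGalois K L → B ≤ h)

/-- `φ` has a preperiodic point in some number field `L` that contains `K` and whose degree over `K`
is not divisible by `d`. -/
def HasPreperiodic {K : Type} [Field K] {d : ℕ} (b : ℤ) (c : Fin (d + 1) → 𝓞 K) : Prop :=
  ∃ (L : Type) (_ : Field L) (_ : NumberField L) (_ : Algebra K L) (x : L) (k m : ℕ),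
    ¬ d ∣ finrank K L ∧ k < m ∧
      (fun y => aeval y (poly b c))^[k] x = (fun y => aeval y (poly b c))^[m] x

/-- The absolute logarithmic height of the point `[b : c₀ : … : c_d]` of the projective space. -/
noncomputable def height {K : Type} [Field K] [NumberField K] {d : ℕ} (b : ℤ)
    (c : Fin (d + 1) → 𝓞 K) : ℝ :=
  Height.logHeight (Fin.cons (b : K) (fun i => (c i : K)) : Fin (d + 2) → K) / finrank ℚ K

/-- The vectors `(b, c₀, …, c_d)` with `|b| ≤ X` for which the coordinates of the `c_i` in the integral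
basis `ω` are at most `Y` in absolute value. -/
def Box {K : Type} [Field K] {J : Type} (ω : Module.Basis J ℤ (𝓞 K)) (d X Y : ℕ) :
    Set (ℤ × (Fin (d + 1) → 𝓞 K)) :=
  {q | |q.1| ≤ (X : ℤ) ∧ ∀ i j, |ω.repr (q.2 i) j| ≤ (Y : ℤ)}

/-- the share of the vectors of the set `S` with the property `P` is at most `t` -/
def ShareLe {α : Type} (S : Set α) (P : α → Prop) (t : ℝ) : Prop :=
  ({q : α | q ∈ S ∧ P q}.ncard : ℝ) ≤ t * (S.ncard : ℝ)

section proof

open IsDedekindDomain Pool.Agent.TH377.Sup

lemma Lehmer.mono {K : Type} [Field K] {d : ℕ} {B B' : ℝ} (hB : B' ≤ B) {b : ℤ}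
    {c : Fin (d + 1) → 𝓞 K} (h : Lehmer B b c) : Lehmer B' b c := by
  refine ⟨h.1, h.2.1, ?_⟩
  intro L _ _ _ x hL
  obtain ⟨r, h1, h2, h3⟩ := h.2.2 L x hL
  exact ⟨r, h1, (div_le_div_of_nonneg_right hB (Nat.cast_nonneg _)).trans h2,
    fun hG => hB.trans (h3 hG)⟩

lemma box_ncard {K : Type} [Field K] [NumberField K] {J : Type} [Fintype J]
    (ω : Module.Basis J ℤ (𝓞 K)) (d X Y : ℕ) :
    (Box ω d X Y).ncard = (2 * X + 1) * (2 * Y + 1) ^ (finrank ℚ K * (d + 1)) := by
  classical
  have hJ : Fintype.card J = finrank ℚ K := by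
    rw [← RingOfIntegers.rank, Module.finrank_eq_card_basis ω]
  have hinj : Function.Injective (fun q : ℤ × (Fin (d + 1) → 𝓞 K) =>
      (q.1, Pool.Agent.D0H55.LL.coordZ ω q.2)) := by
    intro q q' h
    exact Prod.ext (Prod.mk.inj h).1 (Pool.Agent.D0H55.LL.coordZ_inj ω (Prod.mk.inj h).2)
  have himg : (fun q : ℤ × (Fin (d + 1) → 𝓞 K) => (q.1, Pool.Agent.D0H55.LL.coordZ ω q.2)) ''
      (Box ω d X Y) = ((Finset.Icc (-(X : ℤ)) X ×ˢ (Fintype.piFinset fun _ : Fin (d + 1) × J =>
        Finset.Icc (-(Y : ℤ)) Y) : Finset _) : Set _) := by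
    ext z
    rw [Finset.mem_coe, Finset.mem_product, Fintype.mem_piFinset, Finset.mem_Icc]
    constructor
    · rintro ⟨q, hq, rfl⟩
      refine ⟨abs_le.1 hq.1, fun i => ?_⟩
      rw [Finset.mem_Icc]
      exact abs_le.1 (hq.2 i.1 i.2)
    · rintro ⟨h1, h2⟩
      have hrepr : ∀ i j, ω.repr (∑ j, z.2 (i, j) • ω j) j = z.2 (i, j) := by
        intro i j
        exact congrFun (ω.repr_sum_self fun j => z.2 (i, j)) j
      refine ⟨(z.1, fun i => ∑ j, z.2 (i, j) • ω j), ⟨abs_le.2 h1, fun i j => ?_⟩, ?_⟩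
      · change |ω.repr (∑ j, z.2 (i, j) • ω j) j| ≤ (Y : ℤ)
        rw [hrepr]
        have := h2 (i, j)
        rw [Finset.mem_Icc] at this
        exact abs_le.2 this
      · refine Prod.ext rfl ?_
        funext i
        exact hrepr i.1 i.2
  rw [← Set.ncard_image_of_injective _ hinj, himg, Set.ncard_coe_finset, Finset.card_product,
    Fintype.card_piFinset, Finset.prod_const, Finset.card_univ, Int.card_Icc, Int.card_Icc,
    Fintype.card_prod, Fintype.card_fin, hJ, mul_comm (d + 1)]
  have h1 : ((X : ℤ) + 1 - -(X : ℤ)).toNat = 2 * X + 1 := by omega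
  have h2 : ((Y : ℤ) + 1 - -(Y : ℤ)).toNat = 2 * Y + 1 := by omega
  rw [h1, h2]

/-- one good prime gives the inequality -/
lemma lehmer_of_good {K : Type} [Field K] [NumberField K] {d : ℕ} (hd : 2 ≤ d) {X : ℕ}
    (hX : 2 ≤ X) {u : ℝ} (hu : 0 < u) (b : ℤ) (c : Fin (d + 1) → 𝓞 K) (hb : b ≠ 0) (p : ℕ)
    (v : HeightOneSpectrum (𝓞 K)) (hp : p.Prime) (hpu : u * Real.log X ≤ Real.log p)
    (hpb : (p : ℤ) ∣ b) (hpv : (p : 𝓞 K) ∈ v.asIdeal) (h : IrrMod v d c) :
    Lehmer (u * Real.log X / (d * finrank ℚ K)) b c := by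
  have hn : (0 : ℝ) < finrank ℚ K := Nat.cast_pos.2 finrank_pos
  have hd0 : (0 : ℝ) < d := by exact_mod_cast (by omega : 0 < d)
  have hX2 : (2 : ℝ) ≤ X := by exact_mod_cast hX
  have hlX : 0 < Real.log X := Real.log_pos (by linarith)
  refine ⟨hb, Pool.Agent.D0H55.LL.poly_degree b c hb v h, ?_⟩
  intro L _ _ _ x hL
  refine Pool.Agent.D0H55.LL.of_good hd _ (by positivity) b hb c p hp hpb v hpv h ?_ x hL
  refine le_trans (le_of_eq ?_) hpu
  field_simp

/-- preperiodic points contradict the inequality -/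
lemma not_lehmer {K : Type} [Field K] [NumberField K] {d : ℕ} (hd : 2 ≤ d) {B : ℝ} (hB : 0 < B)
    {b : ℤ} {c : Fin (d + 1) → 𝓞 K} (h : HasPreperiodic b c) : ¬ Lehmer B b c := by
  rintro ⟨hb, hdeg, hl⟩
  obtain ⟨L, _, _, _, x, k, m, hL, hkm, hx⟩ := h
  obtain ⟨r, h1, h2, -⟩ := hl L x hL
  have hr : r = 0 := by
    refine Pool.Agent.D0H55.LL.zero_of_preperiodic (fun y => aeval y (poly b c)) x k m hkm hx
      (finrank ℚ L : ℝ) ((poly b c).natDegree : ℝ) (Nat.cast_pos.2 finrank_pos) ?_ r h1
    rw [hdeg]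
    exact_mod_cast (by omega : 1 < d)
  have h3 : 0 < B / finrank K L := by
    have : FiniteDimensional K L := Module.Finite.of_restrictScalars_finite ℚ K L
    have : (0 : ℝ) < finrank K L := Nat.cast_pos.2 finrank_pos
    positivity
  linarith

end proof

/-- **The dynamical Lang and Lehmer inequalities for almost all polynomials.**  Let `d ≥ 2` and `n`
be integers. There is a constant `C > 0` such that for every number field `K` of degree `n`, every
integral basis `ω` of `K` and all `2 ≤ X ≤ Y`: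

1. the box `|b| ≤ X`, `|coordinates of the c_i| ≤ Y` has `(2 X + 1) (2 Y + 1)^(n (d + 1))` elements;
2. for every `u > 0` the Lehmer inequality holds with the constant `(u / (d n)) log X` for all but a
   share of at most `C (u + 1 / log X)^(1/d)` of the elements of the box;
3. all but a share of at most `C (log X)^(-1/d)` of the elements of the box have no preperiodic point in
   number fields `L ⊇ K` with `d ∤ [L : K]`.

4. For all `K` and `ω` there is `A` such that the canonical height of `0` is at most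
   `(log X + A) / (d - 1)` for all elements of the cube `X = Y` with `b ≠ 0` and `deg φ = d`.
5. For every `ε > 0` there is `κ > 0` such that for all number fields `K` of degree `n`, all integral
   bases and all `X ≥ X₀(K, ω, ε)` the Lehmer inequality holds with the constant `κ h(φ)`, where
   `h(φ)` is the height of `[b : c₀ : … : c_d]`, for all but a share `ε` of the elements of the cube
   `X = Y`. -/
theorem result (d n : ℕ) (hd : 2 ≤ d) :
    (∃ C : ℝ, 0 < C ∧ ∀ (K : Type) [Field K] [NumberField K], finrank ℚ K = n →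
      ∀ (J : Type) [Fintype J] (ω : Module.Basis J ℤ (𝓞 K)) (X Y : ℕ), 2 ≤ X → X ≤ Y →
        (Box ω d X Y).ncard = (2 * X + 1) * (2 * Y + 1) ^ (n * (d + 1)) ∧
        (∀ u : ℝ, 0 < u →
          ShareLe (Box ω d X Y) (fun q => ¬ Lehmer (u / (d * n) * Real.log X) q.1 q.2)
            (C * (u + 1 / Real.log X) ^ (1 / (d : ℝ)))) ∧
        ShareLe (Box ω d X Y) (fun q => HasPreperiodic q.1 q.2)
          (C * (1 / Real.log X) ^ (1 / (d : ℝ)))) ∧
    (∀ (K : Type) [Field K] [NumberField K], finrank ℚ K = n →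
      ∀ (J : Type) [Fintype J] (ω : Module.Basis J ℤ (𝓞 K)), ∃ A : ℝ, ∀ X : ℕ, 1 ≤ X →
        ∀ q ∈ Box ω d X X, q.1 ≠ 0 → (poly q.1 q.2).natDegree = d →
          ∀ h : ℝ, IsCanonicalHeight (poly q.1 q.2) (0 : K) h → h ≤ (Real.log X + A) / (d - 1)) ∧
    (∀ ε : ℝ, 0 < ε → ∃ κ : ℝ, 0 < κ ∧
      ∀ (K : Type) [Field K] [NumberField K], finrank ℚ K = n →
      ∀ (J : Type) [Fintype J] (ω : Module.Basis J ℤ (𝓞 K)), ∃ X₀ : ℕ, ∀ X : ℕ, X₀ ≤ X →
        ShareLe (Box ω d X X) (fun q => ¬ Lehmer (κ * height q.1 q.2) q.1 q.2) ε) := by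
  obtain ⟨C, hC, hmain⟩ := Pool.Agent.D0H55.LL.main d n hd
  have hd0 : (0 : ℝ) < d := by exact_mod_cast (by omega : 0 < d)
  -- the share of the exceptional vectors
  have key : ∀ (K : Type) [Field K] [NumberField K], finrank ℚ K = n →
      ∀ (J : Type) [Fintype J] (ω : Module.Basis J ℤ (𝓞 K)) (X Y : ℕ), 2 ≤ X → X ≤ Y →
        ∀ u : ℝ, 0 < u →
          ShareLe (Box ω d X Y) (fun q => ¬ Lehmer (u / (d * n) * Real.log X) q.1 q.2)
            (C * (u + 1 / Real.log X) ^ (1 / (d : ℝ))) := by
    intro K _ _ hK J _ ω X Y hX hXY u hu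
    unfold ShareLe
    rw [box_ncard, hK]
    push_cast
    refine hmain K hK J ω X Y hX hXY u hu _ ?_
    rintro q ⟨hq, hne⟩
    refine ⟨hq.1, hq.2, ?_⟩
    by_contra hcon
    push Not at hcon
    obtain ⟨hb, p, v, hp, hpu, hpb, hpv, hirr⟩ := hcon
    apply hne
    have := lehmer_of_good hd hX hu q.1 q.2 hb p v hp hpu hpb hpv hirr
    rw [hK] at this
    refine this.mono (le_of_eq ?_)
    ring
  refine ⟨⟨C * 2 ^ (1 / (d : ℝ)), by positivity, ?_⟩, ?_, ?_⟩
  · intro K _ _ hK J _ ω X Y hX hXY
    have hX2 : (2 : ℝ) ≤ X := by exact_mod_cast hX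
    have hlX : 0 < Real.log X := Real.log_pos (by linarith)
    have hn : (0 : ℝ) < n := by
      rw [← hK]
      exact Nat.cast_pos.2 finrank_pos
    have h21 : (1 : ℝ) ≤ 2 ^ (1 / (d : ℝ)) := Real.one_le_rpow (by norm_num) (by positivity)
    refine ⟨by rw [box_ncard, hK], ?_, ?_⟩
    · intro u hu
      refine (key K hK J ω X Y hX hXY u hu).trans ?_
      refine mul_le_mul_of_nonneg_right ?_ (Nat.cast_nonneg _)
      refine mul_le_mul_of_nonneg_right ?_ (by positivity)
      nlinarith
    · have h1 := key K hK J ω X Y hX hXY (1 / Real.log X) (by positivity)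
      have hfin : {q : ℤ × (Fin (d + 1) → 𝓞 K) | q ∈ Box ω d X Y ∧
          ¬ Lehmer (1 / Real.log X / (d * n) * Real.log X) q.1 q.2}.Finite := by
        refine Set.Finite.subset (s := Box ω d X Y) ?_ fun q hq => hq.1
        refine Set.finite_of_ncard_pos ?_
        rw [box_ncard]
        positivity
      have h2 : {q : ℤ × (Fin (d + 1) → 𝓞 K) | q ∈ Box ω d X Y ∧ HasPreperiodic q.1 q.2} ⊆
          {q : ℤ × (Fin (d + 1) → 𝓞 K) | q ∈ Box ω d X Y ∧
            ¬ Lehmer (1 / Real.log X / (d * n) * Real.log X) q.1 q.2} :=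
        fun q hq => ⟨hq.1, not_lehmer hd (by positivity) hq.2⟩
      have h3 := Set.ncard_le_ncard h2 hfin
      have h4 : ({q : ℤ × (Fin (d + 1) → 𝓞 K) | q ∈ Box ω d X Y ∧
          HasPreperiodic q.1 q.2}.ncard : ℝ) ≤ ({q : ℤ × (Fin (d + 1) → 𝓞 K) | q ∈ Box ω d X Y ∧
            ¬ Lehmer (1 / Real.log X / (d * n) * Real.log X) q.1 q.2}.ncard : ℝ) := by
        exact_mod_cast h3
      refine h4.trans (h1.trans (le_of_eq ?_))
      rw [← two_mul, Real.mul_rpow (by norm_num) (by positivity)]
      ring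
  · intro K _ _ hK J _ ω
    refine ⟨Real.log (((d : ℝ) + 1) * Pool.Agent.D0H55.LL.size ω), ?_⟩
    intro X hX q hq hb hdeg h hh
    refine Pool.Agent.D0H55.LL.zero_le ω hd X hX q.1 hb hq.1 q.2 hq.2 h ?_
    unfold IsCanonicalHeight at hh
    rw [hdeg] at hh
    exact hh
  · intro ε hε
    have hC0 : 0 < C := by linarith
    rcases Nat.eq_zero_or_pos n with hn0 | hn0
    · refine ⟨1, one_pos, ?_⟩
      intro K _ _ hK
      have : 0 < finrank ℚ K := finrank_pos
      omega
    have hn : (0 : ℝ) < n := by exact_mod_cast hn0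
    set u : ℝ := (ε / C) ^ (d : ℝ) / 2 with hu
    have hu0 : 0 < u := by
      rw [hu]
      positivity
    refine ⟨u / (2 * d * n), by positivity, ?_⟩
    intro K _ _ hK J _ ω
    have hs := Pool.Agent.D0H55.LL.one_le_size ω
    refine ⟨max 2 (max ⌈Pool.Agent.D0H55.LL.size ω⌉₊ ⌈Real.exp (1 / u)⌉₊), ?_⟩
    intro X hX
    have hX1 : 2 ≤ X := (le_max_left _ _).trans hX
    have hX2 : Pool.Agent.D0H55.LL.size ω ≤ X := by
      refine (Nat.le_ceil _).trans ?_
      exact_mod_cast ((le_max_left _ _).trans (le_max_right _ _)).trans hX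
    have hX3 : Real.exp (1 / u) ≤ X := by
      refine (Nat.le_ceil _).trans ?_
      exact_mod_cast ((le_max_right _ _).trans (le_max_right _ _)).trans hX
    have hX0 : (2 : ℝ) ≤ X := by exact_mod_cast hX1
    have hlX : 1 / u ≤ Real.log X := (Real.le_log_iff_exp_le (by linarith)).2 hX3
    have hlX0 : 0 < Real.log X := lt_of_lt_of_le (by positivity) hlX
    have h1 : 1 / Real.log X ≤ u := by
      rw [div_le_iff₀ hlX0]
      rw [div_le_iff₀ hu0] at hlX
      linarith
    have h2 : C * (u + 1 / Real.log X) ^ (1 / (d : ℝ)) ≤ ε := by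
      have h3 : (u + 1 / Real.log X) ^ (1 / (d : ℝ)) ≤ ((ε / C) ^ (d : ℝ)) ^ (1 / (d : ℝ)) := by
        refine Real.rpow_le_rpow (by positivity) ?_ (by positivity)
        have : (ε / C) ^ (d : ℝ) = 2 * u := by
          rw [hu]
          ring
        rw [this]
        linarith
      rw [← Real.rpow_mul (by positivity), mul_one_div_cancel hd0.ne', Real.rpow_one] at h3
      calc C * (u + 1 / Real.log X) ^ (1 / (d : ℝ)) ≤ C * (ε / C) :=
          mul_le_mul_of_nonneg_left h3 hC0.le
        _ = ε := by field_simp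
    have h4 := key K hK J ω X X hX1 le_rfl u hu0
    have hfin : {q : ℤ × (Fin (d + 1) → 𝓞 K) | q ∈ Box ω d X X ∧
        ¬ Lehmer (u / (d * n) * Real.log X) q.1 q.2}.Finite := by
      refine Set.Finite.subset (s := Box ω d X X) ?_ fun q hq => hq.1
      refine Set.finite_of_ncard_pos ?_
      rw [box_ncard]
      positivity
    have h5 : {q : ℤ × (Fin (d + 1) → 𝓞 K) | q ∈ Box ω d X X ∧
        ¬ Lehmer (u / (2 * d * n) * height q.1 q.2) q.1 q.2} ⊆
        {q : ℤ × (Fin (d + 1) → 𝓞 K) | q ∈ Box ω d X X ∧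
          ¬ Lehmer (u / (d * n) * Real.log X) q.1 q.2} := by
      rintro q ⟨hq, hne⟩
      refine ⟨hq, fun hl => hne (hl.mono ?_)⟩
      have h6 := Pool.Agent.D0H55.LL.height_le ω X (by omega) q.1 hl.1 hq.1 q.2 hq.2
      have h7 : height q.1 q.2 ≤ 2 * Real.log X := by
        unfold height
        rw [hK] at h6
        rw [hK, div_le_iff₀ hn]
        have h8 : Real.log (Pool.Agent.D0H55.LL.size ω) ≤ Real.log X :=
          Real.log_le_log (by linarith) hX2
        nlinarith
      calc u / (2 * d * n) * height q.1 q.2 ≤ u / (2 * d * n) * (2 * Real.log X) :=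
          mul_le_mul_of_nonneg_left h7 (by positivity)
        _ = u / (d * n) * Real.log X := by
          field_simp
    have h6 : ({q : ℤ × (Fin (d + 1) → 𝓞 K) | q ∈ Box ω d X X ∧
        ¬ Lehmer (u / (2 * d * n) * height q.1 q.2) q.1 q.2}.ncard : ℝ) ≤
        ({q : ℤ × (Fin (d + 1) → 𝓞 K) | q ∈ Box ω d X X ∧
          ¬ Lehmer (u / (d * n) * Real.log X) q.1 q.2}.ncard : ℝ) := by
      exact_mod_cast Set.ncard_le_ncard h5 hfin
    exact h6.trans (h4.trans (mul_le_mul_of_nonneg_right h2 (Nat.cast_nonneg _)))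

end Pool.Agent.Results.MP_2194ec_nt.LangLehmer
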