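import Pool.Agent.D0H55.LN.Res
import Pool.Agent.D0H55.LN.UppN

/-!
# MP_2194ec_nt: dynamical Lehmer and Lang inequalities for almost all polynomial maps of affine space

Let `K` be a number field of degree `n`, and `N ≥ 1`, `d ≥ 2`.  Every polynomial map of degree at most
`d` of the affine space `A^N` over `K` can be written as

  `φ = (F₁ / b, …, F_N / b)`,  `b ∈ ℤ`, `F_i` polynomials of degree `≤ d` over `O_K`.

If the leading forms of the `F_i` have no common zero, `φ` extends to an endomorphism of degree `d` of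
the projective space `P^N`.  For `N = 1` see the starting result `PolynomialLehmer`.

**Theorem.**  Let `2 ≤ X ≤ Y`.  We consider the vectors `(b, c)`, where `|b| ≤ X` and the coordinates (in
an arbitrary integral basis of `K`) of the coefficients `c` of the `F_i` have absolute value at most `Y`.
There is a constant `C` which depends only on `N`, `d` and `n` such that:

1. For all `u > 0`, all but a share of at most `C (u + 1 / log X)^(1/4)` of the vectors have the
   following property: `φ` extends to an endomorphism of degree `d` of `P^N`, and for ALL finite Galois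
   extensions `L` of `K` whose degree has no prime factor `≤ binom(N d, N)` and all `x ∈ A^N(L)`

     `ĥ_φ(x) ≥ (u / (d n)) log X`.

   For instance `L = K`, or the finite Galois extensions in the maximal pro-`ℓ`-extension of `K`, for
   all large primes `ℓ` at once.  The bound does not depend on the degree of `L`.  This order of
   magnitude is right: `ĥ_φ(0) ≤ (log X + A) / (d - 1)` for all vectors with `X = Y`, `b ≠ 0`.
2. For all but a share of at most `C (log X)^(-1/4)` of the vectors, `φ` has no preperiodic point in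
   `A^N(L)` for all these `L`.
3. For every `ε > 0` there is `κ > 0`, depending only on `ε`, `N`, `d` and `n`, such that in large cubes
   (`X = Y ≥ X₀(K, ε)`) all but a share `ε` of the vectors satisfy `ĥ_φ(x) ≥ κ h(φ)` for all these
   fields `L` and all `x ∈ A^N(L)`; here `h(φ)` is the height of the vector `[b : c]`.

Proof.  Let `v` be a prime of `K` above a prime number `p` dividing `b`, with residue field `k`, and
suppose that the homogenized system `F mod v` has no zero in `P^N(k')`, `k'` the residue fields of `L`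
above `v`.  Then `‖φ(x)‖_w ≥ p ^ e · max(1, ‖x‖_w)^d` for all `w | v` and all `x`, and the local heights of
all points are large.  We show that at least a quarter of the systems over a finite field `k` with `q`
elements (`q` large) has no zero in `P^N(k')` for all extensions `k'` whose degree has no prime factor
`≤ binom(N d, N)`:  the multiples of the leading forms in degree `N (d - 1) + 1` span all forms of this
degree for all but `O(1/q)` of the systems (the matrix is the identity for `x_i^d`, so on every line in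
this direction its determinant is a monic polynomial); then there are no zeros at infinity, and the
coordinates of the zeros have degree at most `binom(N d, N)` over `k`, so that they are in `k` if they
are in `k'`.  By Bonferroni's inequality at least the share `1/3 - 1/q^N` of the systems has no zero in
`k^N`: the values at up to three points are independent.  The number of the vectors such that this
happens at no large prime factor of `b` is estimated as in `LangLehmer` (Chinese remainder theorem, mean
value of a multiplicative function, Chebyshev and Mertens).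
-/

set_option autoImplicit false

open NumberField Module Filter Topology

namespace Pool.Agent.Results.MP_2194ec_nt.PolynomialMapsOfAffineSpace

open Pool.Agent.D0H55.LN (Mon)

/-- The map `x ↦ (∑_a c_{i,a} x^a) / b`, `i = 1, …, N`, of `L^N` into itself.  Here `Mon N d` is the set of
the exponents `a : Fin N → ℕ` with `∑ a_j ≤ d`. -/
noncomputable def poly {K : Type} [Field K] {N d : ℕ} (L : Type) [Field L] [Algebra K L] (b : ℤ)
    (c : Fin N → Mon N d → 𝓞 K) (x : Fin N → L) : Fin N → L :=
  fun i => (b : L)⁻¹ * ∑ a : Mon N d, algebraMap K L (c i a) * ∏ j, x j ^ a.1 j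

/-- The forms of degree `d` of the system have no common zero but `0`, over any field that contains
`K`.  So the map extends to an endomorphism of degree `d` of the projective space `P^N`. -/
def Regular {K : Type} [Field K] {N d : ℕ} (c : Fin N → Mon N d → 𝓞 K) : Prop :=
  ∀ (E : Type) [Field E] [Algebra K E] (x : Fin N → E),
    (∀ i, ∑ a : Mon N d, (if ∑ j, a.1 j = d then algebraMap K E (c i a) * ∏ j, x j ^ a.1 j
      else 0) = 0) → x = 0

/-- The real number `h` is the canonical height of the point `x` of `L^N` (that is, of the point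
`[1 : x]` of `P^N`) for the map with the data `b, c`: the limit of `h(φᵐ(x)) / dᵐ`, where `h` is the
absolute logarithmic Weil height, that is, Mathlib's (relative) `Height.logHeight` divided by
`[L : ℚ]`. -/
def IsCanonicalHeight {K : Type} [Field K] {N d : ℕ} (L : Type) [Field L] [NumberField L]
    [Algebra K L] (b : ℤ) (c : Fin N → Mon N d → 𝓞 K) (x : Fin N → L) (h : ℝ) : Prop :=
  Tendsto (fun m : ℕ => Height.logHeight (Fin.cons 1 ((poly L b c)^[m] x) : Fin (N + 1) → L) /
    ((finrank ℚ L : ℝ) * (d : ℝ) ^ m)) atTop (𝓝 h)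

/-- `L` is a Galois extension of `K` whose degree has no prime factor `≤ binom(N d, N)`. -/
def Admissible (N d : ℕ) (K L : Type) [Field K] [Field L] [Algebra K L] : Prop :=
  IsGalois K L ∧ ∀ l : ℕ, l.Prime → l ≤ (N * d).choose N → ¬ l ∣ finrank K L

/-- The inequality with the constant `B`: `b ≠ 0`, the map extends to an endomorphism of degree `d` of
the projective space, and for every admissible number field `L` the canonical height of every
`x ∈ L^N` exists and is at least `B`. -/
def Lang {K : Type} [Field K] {N d : ℕ} (B : ℝ) (b : ℤ) (c : Fin N → Mon N d → 𝓞 K) : Prop :=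
  b ≠ 0 ∧ Regular c ∧ ∀ (L : Type) [Field L] [NumberField L] [Algebra K L], Admissible N d K L →
    ∀ x : Fin N → L, ∃ h : ℝ, IsCanonicalHeight L b c x h ∧ B ≤ h

/-- The map has a preperiodic point in `L^N` for some admissible number field `L`. -/
def HasPreperiodic {K : Type} [Field K] {N d : ℕ} (b : ℤ) (c : Fin N → Mon N d → 𝓞 K) : Prop :=
  ∃ (L : Type) (_ : Field L) (_ : NumberField L) (_ : Algebra K L), Admissible N d K L ∧
    ∃ (x : Fin N → L) (k m : ℕ), k < m ∧ (poly L b c)^[k] x = (poly L b c)^[m] x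

/-- The absolute logarithmic height of the point `[b : c]` of the projective space. -/
noncomputable def height {K : Type} [Field K] [NumberField K] {N d : ℕ} (b : ℤ)
    (c : Fin N → Mon N d → 𝓞 K) : ℝ :=
  Height.logHeight (fun s : Option (Fin N × Mon N d) => s.elim (b : K) fun t => (c t.1 t.2 : K)) /
    finrank ℚ K

/-- The vectors `(b, c)` with `|b| ≤ X` for which the coordinates of the `c_{i,a}` in the integral
basis `ω` are at most `Y` in absolute value. -/
def Box {K : Type} [Field K] {J : Type} (ω : Module.Basis J ℤ (𝓞 K)) (N d X Y : ℕ) :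
    Set (ℤ × (Fin N → Mon N d → 𝓞 K)) :=
  {q | |q.1| ≤ (X : ℤ) ∧ ∀ i a j, |ω.repr (q.2 i a) j| ≤ (Y : ℤ)}

/-- the share of the vectors of the set `S` with the property `P` is at most `t` -/
def ShareLe {α : Type} (S : Set α) (P : α → Prop) (t : ℝ) : Prop :=
  ({q : α | q ∈ S ∧ P q}.ncard : ℝ) ≤ t * (S.ncard : ℝ)

section proof

open IsDedekindDomain Pool.Agent.D0H55.LN

variable {K : Type} [Field K] {N d : ℕ}

lemma poly_eq {L : Type} [Field L] [Algebra K L] (b : ℤ) (c : Fin N → Mon N d → 𝓞 K) :
    poly L b c = Pool.Agent.D0H55.LN.pmap L (b : 𝓞 K) c := by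
  funext x i
  unfold poly Pool.Agent.D0H55.LN.pmap
  rw [hev_one, map_intCast]
  rfl

lemma Lang.mono {B B' : ℝ} (hB : B' ≤ B) {b : ℤ} {c : Fin N → Mon N d → 𝓞 K} (h : Lang B b c) :
    Lang B' b c := by
  refine ⟨h.1, h.2.1, ?_⟩
  intro L _ _ _ hL x
  obtain ⟨r, h1, h2⟩ := h.2.2 L hL x
  exact ⟨r, h1, hB.trans h2⟩

variable [NumberField K]

lemma box_ncard {J : Type} [Fintype J] (ω : Module.Basis J ℤ (𝓞 K)) (N d X Y : ℕ) :
    (Box ω N d X Y).ncard =
      (2 * X + 1) * (2 * Y + 1) ^ (finrank ℚ K * (N * (N + d).choose N)) := by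
  classical
  have hJ : Fintype.card J = finrank ℚ K := by
    rw [← RingOfIntegers.rank, Module.finrank_eq_card_basis ω]
  have hinj : Function.Injective (fun q : ℤ × (Fin N → Mon N d → 𝓞 K) =>
      (q.1, coordZ ω q.2)) := by
    intro q q' h
    exact Prod.ext (Prod.mk.inj h).1 (coordZ_inj ω (Prod.mk.inj h).2)
  have himg : (fun q : ℤ × (Fin N → Mon N d → 𝓞 K) => (q.1, coordZ ω q.2)) ''
      (Box ω N d X Y) = ((Finset.Icc (-(X : ℤ)) X ×ˢ (Fintype.piFinset fun _ :
        (Fin N × Mon N d) × J => Finset.Icc (-(Y : ℤ)) Y) : Finset _) : Set _) := by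
    ext z
    rw [Finset.mem_coe, Finset.mem_product, Fintype.mem_piFinset, Finset.mem_Icc]
    constructor
    · rintro ⟨q, hq, rfl⟩
      refine ⟨abs_le.1 hq.1, fun i => ?_⟩
      rw [Finset.mem_Icc]
      exact abs_le.1 (hq.2 i.1.1 i.1.2 i.2)
    · rintro ⟨h1, h2⟩
      have hrepr : ∀ i a j, ω.repr (∑ j, z.2 ((i, a), j) • ω j) j = z.2 ((i, a), j) := by
        intro i a j
        exact congrFun (ω.repr_sum_self fun j => z.2 ((i, a), j)) j
      refine ⟨(z.1, fun i a => ∑ j, z.2 ((i, a), j) • ω j), ⟨abs_le.2 h1, fun i a j => ?_⟩, ?_⟩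
      · change |ω.repr (∑ j, z.2 ((i, a), j) • ω j) j| ≤ (Y : ℤ)
        rw [hrepr]
        have := h2 ((i, a), j)
        rw [Finset.mem_Icc] at this
        exact abs_le.2 this
      · refine Prod.ext rfl ?_
        funext i
        exact hrepr i.1.1 i.1.2 i.2
  rw [← Set.ncard_image_of_injective _ hinj, himg, Set.ncard_coe_finset, Finset.card_product,
    Fintype.card_piFinset, Finset.prod_const, Finset.card_univ, Int.card_Icc, Int.card_Icc,
    Fintype.card_prod, Fintype.card_prod, Fintype.card_fin, hJ, mon_card,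
    mul_comm (N * (N + d).choose N)]
  have h1 : ((X : ℤ) + 1 - -(X : ℤ)).toNat = 2 * X + 1 := by omega
  have h2 : ((Y : ℤ) + 1 - -(Y : ℤ)).toNat = 2 * Y + 1 := by omega
  rw [h1, h2]

/-- a good prime makes the system regular -/
lemma regular_of (c : Fin N → Mon N d → 𝓞 K) (v : HeightOneSpectrum (𝓞 K))
    (h : GoodAt v c) : Regular c := by
  intro E _ _ x hx
  have hdet : (mat c).det ≠ 0 := by
    intro h0
    apply h.1
    rw [← map_mat (Ideal.Quotient.mk v.asIdeal) c]
    have : ((mat c).map (Ideal.Quotient.mk v.asIdeal)).det =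
        Ideal.Quotient.mk v.asIdeal (mat c).det :=
      ((Ideal.Quotient.mk v.asIdeal).map_det (mat c)).symm
    rw [this, h0, map_zero]
  set f : 𝓞 K →+* E := (algebraMap K E).comp (algebraMap (𝓞 K) K) with hf
  have hinj : Function.Injective f :=
    (algebraMap K E).injective.comp (FaithfulSMul.algebraMap_injective (𝓞 K) K)
  refine lead_zero (fun i b => f (c i b)) ?_ x fun i => ?_
  · rw [← map_mat f c]
    have : ((mat c).map f).det = f (mat c).det := (f.map_det (mat c)).symm
    rw [this]
    intro h0
    exact hdet (hinj (h0.trans (map_zero f).symm))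
  · refine Eq.trans ?_ (hx i)
    unfold hev
    refine Finset.sum_congr rfl fun a _ => ?_
    by_cases ha : ∑ j, a.1 j = d
    · rw [if_pos ha, ha, Nat.sub_self, pow_zero, one_mul]
      rfl
    · have : d - ∑ i, a.1 i ≠ 0 := by
        have := a.2
        omega
      rw [if_neg ha, zero_pow this, zero_mul, mul_zero]

/-- one good prime gives the inequality -/
lemma lang_of_good (hd : 2 ≤ d) {X : ℕ} {u : ℝ} (b : ℤ) (c : Fin N → Mon N d → 𝓞 K)
    (hb : b ≠ 0) (p : ℕ) (v : HeightOneSpectrum (𝓞 K)) (hp : p.Prime)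
    (hpu : u * Real.log X ≤ Real.log p) (hpb : (p : ℤ) ∣ b) (hpv : (p : 𝓞 K) ∈ v.asIdeal)
    (h : GoodAt v c) : Lang (u * Real.log X / (d * finrank ℚ K)) b c := by
  have hn : (0 : ℝ) < finrank ℚ K := Nat.cast_pos.2 finrank_pos
  have hd0 : (0 : ℝ) < d := by exact_mod_cast (by omega : 0 < d)
  refine ⟨hb, regular_of c v h, ?_⟩
  intro L _ _ _ hL x
  have hb0 : (b : 𝓞 K) ≠ 0 := by exact_mod_cast hb
  have hbv : (b : 𝓞 K) ∈ v.asIdeal := by
    obtain ⟨m, rfl⟩ := hpb
    rw [Int.cast_mul, Int.cast_natCast]
    exact Ideal.mul_mem_right _ _ hpv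
  obtain ⟨r, hr⟩ := canonical (L := L) hd (b : 𝓞 K) hb0 c x
  have hG := hL.1
  have hBd : Bd N d = (N * d).choose N := by
    obtain ⟨e, rfl⟩ : ∃ e, d = e + 1 := ⟨d - 1, by omega⟩
    unfold Bd
    rw [Nat.add_sub_cancel, Nat.mul_succ, add_comm]
  have h1 := lower hd v (b : 𝓞 K) hbv hb0 c h (by rw [hBd]; exact hL.2) x r hr
  refine ⟨r, ?_, ?_⟩
  · unfold IsCanonicalHeight
    rw [poly_eq]
    exact hr
  · refine le_trans ?_ h1
    refine div_le_div_of_nonneg_right (hpu.trans ?_) (by positivity)
    have h2 := Pool.Agent.D0H55.LL.le_norm v p hp hpv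
    exact Real.log_le_log (by exact_mod_cast hp.pos) (by exact_mod_cast h2)

omit [NumberField K] in
/-- preperiodic points contradict the inequality -/
lemma not_lang (hd : 2 ≤ d) {B : ℝ} (hB : 0 < B) {b : ℤ} {c : Fin N → Mon N d → 𝓞 K}
    (h : HasPreperiodic b c) : ¬ Lang B b c := by
  rintro ⟨hb, -, hl⟩
  obtain ⟨L, _, _, _, hL, x, k, m, hkm, hx⟩ := h
  obtain ⟨r, h1, h2⟩ := hl L hL x
  have hr : r = 0 := by
    set f := poly L b c with hf
    have hfin : (Set.range fun k : ℕ => f^[k] x).Finite := by
      have hsub : (Set.range fun k : ℕ => f^[k] x) ⊆ (fun k : ℕ => f^[k] x) '' (Set.Iio m) := by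
        rintro _ ⟨j, rfl⟩
        induction j using Nat.strong_induction_on with
        | _ j ih =>
          by_cases hj : j < m
          · exact ⟨j, hj, rfl⟩
          · have h1 : f^[j] x = f^[j - m + k] x := by
              have h2 : j = (j - m) + m := by omega
              conv_lhs => rw [h2]
              rw [Function.iterate_add_apply, ← hx, ← Function.iterate_add_apply]
            obtain ⟨j', hj', h3⟩ := ih (j - m + k) (by omega)
            exact ⟨j', hj', h3.trans h1.symm⟩
      exact (Set.toFinite _).subset hsub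
    obtain ⟨M, hM⟩ := (hfin.image fun y =>
      Height.logHeight (Fin.cons 1 y : Fin (N + 1) → L)).bddAbove
    have hM' : ∀ k : ℕ, Height.logHeight (Fin.cons 1 (f^[k] x) : Fin (N + 1) → L) ≤ M :=
      fun k => hM ⟨_, ⟨k, rfl⟩, rfl⟩
    have hL0 : (0 : ℝ) < finrank ℚ L := Nat.cast_pos.2 finrank_pos
    have hd1 : (1 : ℝ) < d := by exact_mod_cast (by omega : 1 < d)
    have hlim : Tendsto (fun k : ℕ => M / ((finrank ℚ L : ℝ) * (d : ℝ) ^ k)) atTop (𝓝 0) := by
      have h1 : Tendsto (fun k : ℕ => (finrank ℚ L : ℝ) * (d : ℝ) ^ k) atTop atTop :=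
        (tendsto_pow_atTop_atTop_of_one_lt hd1).const_mul_atTop hL0
      exact Tendsto.const_div_atTop h1 M
    have hsq := squeeze_zero (fun k => div_nonneg (Height.logHeight_nonneg _) (by positivity))
      (fun k => div_le_div_of_nonneg_right (hM' k) (by positivity)) hlim
    exact tendsto_nhds_unique h1 hsq
  linarith

end proof

/-- **Dynamical Lehmer and Lang inequalities for almost all polynomial maps of affine space.**  Let
`N ≥ 1`, `d ≥ 2` and `n` be integers. There is a constant `C > 0` such that for every number field `K`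
of degree `n`, every integral basis `ω` of `K` and all `2 ≤ X ≤ Y`:

1. the box `|b| ≤ X`, `|coordinates of the c_{i,a}| ≤ Y` has `(2 X + 1) (2 Y + 1)^(n N binom(N + d, N))`
   elements;
2. for every `u > 0` the inequality holds with the constant `(u / (d n)) log X` for all but a share of at
   most `C (u + 1 / log X)^(1/4)` of the elements of the box;
3. all but a share of at most `C (log X)^(-1/4)` of the elements of the box have no preperiodic point in
   `L^N` for all admissible number fields `L`.

4. For all `K` and `ω` there is `A` such that the canonical height of the origin is at most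
   `(log X + A) / (d - 1)` for all elements of the cube `X = Y` with `b ≠ 0`.
5. For every `ε > 0` there is `κ > 0` such that for all number fields `K` of degree `n`, all integral
   bases and all `X ≥ X₀(K, ω, ε)` the inequality holds with the constant `κ h(φ)`, where `h(φ)` is the
   height of `[b : c]`, for all but a share `ε` of the elements of the cube `X = Y`. -/
theorem result (N d n : ℕ) (hN : 1 ≤ N) (hd : 2 ≤ d) :
    (∃ C : ℝ, 0 < C ∧ ∀ (K : Type) [Field K] [NumberField K], finrank ℚ K = n →
      ∀ (J : Type) [Fintype J] (ω : Module.Basis J ℤ (𝓞 K)) (X Y : ℕ), 2 ≤ X → X ≤ Y →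
        (Box ω N d X Y).ncard = (2 * X + 1) * (2 * Y + 1) ^ (n * (N * (N + d).choose N)) ∧
        (∀ u : ℝ, 0 < u →
          ShareLe (Box ω N d X Y) (fun q => ¬ Lang (u / (d * n) * Real.log X) q.1 q.2)
            (C * (u + 1 / Real.log X) ^ (1 / (4 : ℝ)))) ∧
        ShareLe (Box ω N d X Y) (fun q => HasPreperiodic q.1 q.2)
          (C * (1 / Real.log X) ^ (1 / (4 : ℝ)))) ∧
    (∀ (K : Type) [Field K] [NumberField K], finrank ℚ K = n →
      ∀ (J : Type) [Fintype J] (ω : Module.Basis J ℤ (𝓞 K)), ∃ A : ℝ, ∀ X : ℕ, 1 ≤ X →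
        ∀ q ∈ Box ω N d X X, q.1 ≠ 0 →
          ∀ h : ℝ, IsCanonicalHeight K q.1 q.2 0 h → h ≤ (Real.log X + A) / (d - 1)) ∧
    (∀ ε : ℝ, 0 < ε → ∃ κ : ℝ, 0 < κ ∧
      ∀ (K : Type) [Field K] [NumberField K], finrank ℚ K = n →
      ∀ (J : Type) [Fintype J] (ω : Module.Basis J ℤ (𝓞 K)), ∃ X₀ : ℕ, ∀ X : ℕ, X₀ ≤ X →
        ShareLe (Box ω N d X X) (fun q => ¬ Lang (κ * height q.1 q.2) q.1 q.2) ε) := by
  obtain ⟨C, hC, hmain⟩ := Pool.Agent.D0H55.LN.main N d n hN hd
  have hd0 : (0 : ℝ) < d := by exact_mod_cast (by omega : 0 < d)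
  -- the share of the exceptional vectors
  have key : ∀ (K : Type) [Field K] [NumberField K], finrank ℚ K = n →
      ∀ (J : Type) [Fintype J] (ω : Module.Basis J ℤ (𝓞 K)) (X Y : ℕ), 2 ≤ X → X ≤ Y →
        ∀ u : ℝ, 0 < u →
          ShareLe (Box ω N d X Y) (fun q => ¬ Lang (u / (d * n) * Real.log X) q.1 q.2)
            (C * (u + 1 / Real.log X) ^ (1 / (4 : ℝ))) := by
    intro K _ _ hK J _ ω X Y hX hXY u hu
    unfold ShareLe
    rw [box_ncard, hK]
    push_cast
    rw [← Pool.Agent.D0H55.LN.mon_card]
    refine hmain K hK J ω X Y hX hXY u hu _ ?_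
    rintro q ⟨hq, hne⟩
    refine ⟨hq.1, hq.2, ?_⟩
    by_contra hcon
    push Not at hcon
    obtain ⟨hb, p, v, hp, hpu, hpb, hpv, hgood⟩ := hcon
    apply hne
    have := lang_of_good hd q.1 q.2 hb p v hp hpu hpb hpv hgood
    rw [hK] at this
    refine this.mono (le_of_eq ?_)
    ring
  refine ⟨⟨C * 2 ^ (1 / (4 : ℝ)), by positivity, ?_⟩, ?_, ?_⟩
  · intro K _ _ hK J _ ω X Y hX hXY
    have hX2 : (2 : ℝ) ≤ X := by exact_mod_cast hX
    have hlX : 0 < Real.log X := Real.log_pos (by linarith)
    have hn : (0 : ℝ) < n := by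
      rw [← hK]
      exact Nat.cast_pos.2 finrank_pos
    have h21 : (1 : ℝ) ≤ 2 ^ (1 / (4 : ℝ)) := Real.one_le_rpow (by norm_num) (by positivity)
    refine ⟨by rw [box_ncard, hK], ?_, ?_⟩
    · intro u hu
      refine (key K hK J ω X Y hX hXY u hu).trans ?_
      refine mul_le_mul_of_nonneg_right ?_ (Nat.cast_nonneg _)
      refine mul_le_mul_of_nonneg_right ?_ (by positivity)
      nlinarith
    · have h1 := key K hK J ω X Y hX hXY (1 / Real.log X) (by positivity)
      have hfin : {q : ℤ × (Fin N → Mon N d → 𝓞 K) | q ∈ Box ω N d X Y ∧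
          ¬ Lang (1 / Real.log X / (d * n) * Real.log X) q.1 q.2}.Finite := by
        refine Set.Finite.subset (s := Box ω N d X Y) ?_ fun q hq => hq.1
        refine Set.finite_of_ncard_pos ?_
        rw [box_ncard]
        positivity
      have h2 : {q : ℤ × (Fin N → Mon N d → 𝓞 K) | q ∈ Box ω N d X Y ∧
          HasPreperiodic q.1 q.2} ⊆
          {q : ℤ × (Fin N → Mon N d → 𝓞 K) | q ∈ Box ω N d X Y ∧
            ¬ Lang (1 / Real.log X / (d * n) * Real.log X) q.1 q.2} :=
        fun q hq => ⟨hq.1, not_lang hd (by positivity) hq.2⟩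
      have h3 := Set.ncard_le_ncard h2 hfin
      have h4 : ({q : ℤ × (Fin N → Mon N d → 𝓞 K) | q ∈ Box ω N d X Y ∧
          HasPreperiodic q.1 q.2}.ncard : ℝ) ≤
          ({q : ℤ × (Fin N → Mon N d → 𝓞 K) | q ∈ Box ω N d X Y ∧
            ¬ Lang (1 / Real.log X / (d * n) * Real.log X) q.1 q.2}.ncard : ℝ) := by
        exact_mod_cast h3
      refine h4.trans (h1.trans (le_of_eq ?_))
      rw [← two_mul, Real.mul_rpow (by norm_num) (by positivity)]
      ring
  · intro K _ _ hK J _ ω
    refine ⟨Real.log (((Fintype.card (Mon N d) : ℝ) + 1) * Pool.Agent.D0H55.LL.size ω), ?_⟩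
    intro X hX q hq hb h hh
    refine Pool.Agent.D0H55.LN.zero_le' ω hd X hX q.1 hb hq.1 q.2 hq.2 h ?_
    unfold IsCanonicalHeight at hh
    rw [poly_eq] at hh
    exact hh
  · intro ε hε
    have hC0 : 0 < C := by linarith
    rcases Nat.eq_zero_or_pos n with hn0 | hn0
    · refine ⟨1, one_pos, ?_⟩
      intro K _ _ hK
      have : 0 < finrank ℚ K := finrank_pos
      omega
    have hn : (0 : ℝ) < n := by exact_mod_cast hn0
    set u : ℝ := (ε / C) ^ (4 : ℝ) / 2 with hu
    have hu0 : 0 < u := by
      rw [hu]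
      positivity
    refine ⟨u / (2 * d * n), by positivity, ?_⟩
    intro K _ _ hK J _ ω
    have hs := Pool.Agent.D0H55.LL.one_le_size ω
    refine ⟨max 2 (max ⌈Pool.Agent.D0H55.LL.size ω⌉₊ ⌈Real.exp (1 / u)⌉₊), ?_⟩
    intro X hX
    have hX1 : 2 ≤ X := (le_max_left _ _).trans hX
    have hX2 : Pool.Agent.D0H55.LL.size ω ≤ X := by
      refine (Nat.le_ceil _).trans ?_
      exact_mod_cast ((le_max_left _ _).trans (le_max_right _ _)).trans hX
    have hX3 : Real.exp (1 / u) ≤ X := by
      refine (Nat.le_ceil _).trans ?_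
      exact_mod_cast ((le_max_right _ _).trans (le_max_right _ _)).trans hX
    have hX0 : (2 : ℝ) ≤ X := by exact_mod_cast hX1
    have hlX : 1 / u ≤ Real.log X := (Real.le_log_iff_exp_le (by linarith)).2 hX3
    have hlX0 : 0 < Real.log X := lt_of_lt_of_le (by positivity) hlX
    have h1 : 1 / Real.log X ≤ u := by
      rw [div_le_iff₀ hlX0]
      rw [div_le_iff₀ hu0] at hlX
      linarith
    have h2 : C * (u + 1 / Real.log X) ^ (1 / (4 : ℝ)) ≤ ε := by
      have h3 : (u + 1 / Real.log X) ^ (1 / (4 : ℝ)) ≤ ((ε / C) ^ (4 : ℝ)) ^ (1 / (4 : ℝ)) := by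
        refine Real.rpow_le_rpow (by positivity) ?_ (by positivity)
        have : (ε / C) ^ (4 : ℝ) = 2 * u := by
          rw [hu]
          ring
        rw [this]
        linarith
      rw [← Real.rpow_mul (by positivity), mul_one_div_cancel (by norm_num), Real.rpow_one] at h3
      calc C * (u + 1 / Real.log X) ^ (1 / (4 : ℝ)) ≤ C * (ε / C) :=
          mul_le_mul_of_nonneg_left h3 hC0.le
        _ = ε := by field_simp
    have h4 := key K hK J ω X X hX1 le_rfl u hu0
    have hfin : {q : ℤ × (Fin N → Mon N d → 𝓞 K) | q ∈ Box ω N d X X ∧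
        ¬ Lang (u / (d * n) * Real.log X) q.1 q.2}.Finite := by
      refine Set.Finite.subset (s := Box ω N d X X) ?_ fun q hq => hq.1
      refine Set.finite_of_ncard_pos ?_
      rw [box_ncard]
      positivity
    have h5 : {q : ℤ × (Fin N → Mon N d → 𝓞 K) | q ∈ Box ω N d X X ∧
        ¬ Lang (u / (2 * d * n) * height q.1 q.2) q.1 q.2} ⊆
        {q : ℤ × (Fin N → Mon N d → 𝓞 K) | q ∈ Box ω N d X X ∧
          ¬ Lang (u / (d * n) * Real.log X) q.1 q.2} := by
      rintro q ⟨hq, hne⟩
      refine ⟨hq, fun hl => hne (hl.mono ?_)⟩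
      have h6 := Pool.Agent.D0H55.LN.height_le ω X (by omega) q.1 hl.1 hq.1 q.2 hq.2
      have h7 : height q.1 q.2 ≤ 2 * Real.log X := by
        have h8 : Real.log (Pool.Agent.D0H55.LL.size ω) ≤ Real.log X :=
          Real.log_le_log (by linarith) hX2
        have h9 : height q.1 q.2 = Height.logHeight (Pool.Agent.D0H55.LN.vec q.1 q.2) /
            finrank ℚ K := rfl
        rw [hK] at h6
        rw [h9, hK, div_le_iff₀ hn]
        nlinarith
      calc u / (2 * d * n) * height q.1 q.2 ≤ u / (2 * d * n) * (2 * Real.log X) :=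
          mul_le_mul_of_nonneg_left h7 (by positivity)
        _ = u / (d * n) * Real.log X := by
          field_simp
    have h6 : ({q : ℤ × (Fin N → Mon N d → 𝓞 K) | q ∈ Box ω N d X X ∧
        ¬ Lang (u / (2 * d * n) * height q.1 q.2) q.1 q.2}.ncard : ℝ) ≤
        ({q : ℤ × (Fin N → Mon N d → 𝓞 K) | q ∈ Box ω N d X X ∧
          ¬ Lang (u / (d * n) * Real.log X) q.1 q.2}.ncard : ℝ) := by
      exact_mod_cast Set.ncard_le_ncard h5 hfin
    exact h6.trans (h4.trans (mul_le_mul_of_nonneg_right h2 (Nat.cast_nonneg _)))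

end Pool.Agent.Results.MP_2194ec_nt.PolynomialMapsOfAffineSpace
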